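import Pool.Agent.Helper26.SK.Defs

/-! Block W of `helper26_SK_BP`: the weights of the reduced power elementary polynomials. -/

namespace Pool.Agent.Helper26.SK

open MvPolynomial

private lemma esymm_fin3 : esymm (Fin 3) ℤ 1 = X 0 + X 1 + X 2 ∧
    esymm (Fin 3) ℤ 2 = X 0 * X 1 + X 0 * X 2 + X 1 * X 2 ∧
    esymm (Fin 3) ℤ 3 = X 0 * X 1 * X 2 := by
  have h1 : Finset.powersetCard 1 (Finset.univ : Finset (Fin 3)) = {{0}, {1}, {2}} := by decide
  have h2 : Finset.powersetCard 2 (Finset.univ : Finset (Fin 3)) = {{0, 1}, {0, 2}, {1, 2}} := by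
    decide
  have h3 : Finset.powersetCard 3 (Finset.univ : Finset (Fin 3)) = {{0, 1, 2}} := by decide
  refine ⟨?_, ?_, ?_⟩
  · rw [esymm, h1, Finset.sum_insert (by decide), Finset.sum_insert (by decide),
      Finset.sum_singleton]
    simp only [Finset.prod_singleton]
    ring
  · rw [esymm, h2, Finset.sum_insert (by decide), Finset.sum_insert (by decide),
      Finset.sum_singleton]
    rw [Finset.prod_pair (by decide), Finset.prod_pair (by decide), Finset.prod_pair (by decide)]
    ring
  · rw [esymm, h3, Finset.sum_singleton, Finset.prod_insert (by decide),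
      Finset.prod_pair (by decide)]
    ring

private lemma pow_sum1 : ∑ J ∈ Finset.powersetCard 1 (Finset.univ : Finset (Fin 3)),
      ∏ j ∈ J, (X j : MvPolynomial (Fin 3) ℤ) ^ 3 = X 0 ^ 3 + X 1 ^ 3 + X 2 ^ 3 := by
  have h1 : Finset.powersetCard 1 (Finset.univ : Finset (Fin 3)) = {{0}, {1}, {2}} := by decide
  rw [h1, Finset.sum_insert (by decide), Finset.sum_insert (by decide), Finset.sum_singleton]
  simp only [Finset.prod_singleton]
  ring

private lemma pow_sum2 : ∑ J ∈ Finset.powersetCard 2 (Finset.univ : Finset (Fin 3)),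
      ∏ j ∈ J, (X j : MvPolynomial (Fin 3) ℤ) ^ 3 =
        X 0 ^ 3 * X 1 ^ 3 + X 0 ^ 3 * X 2 ^ 3 + X 1 ^ 3 * X 2 ^ 3 := by
  have h2 : Finset.powersetCard 2 (Finset.univ : Finset (Fin 3)) = {{0, 1}, {0, 2}, {1, 2}} := by
    decide
  rw [h2, Finset.sum_insert (by decide), Finset.sum_insert (by decide), Finset.sum_singleton]
  rw [Finset.prod_pair (by decide), Finset.prod_pair (by decide), Finset.prod_pair (by decide)]
  ring

private lemma inj3 : Function.Injective
    (aeval (fun j : Fin 3 => esymm (Fin 3) ℤ (j + 1)) :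
      MvPolynomial (Fin 3) ℤ →ₐ[ℤ] MvPolynomial (Fin 3) ℤ) := by
  intro p q hpq
  apply (esymmAlgHom_fin_bijective (R := ℤ) 3).1
  ext1
  rw [esymmAlgHom_apply, esymmAlgHom_apply]
  exact hpq

/-- the two power elementary polynomials -/
private noncomputable def PE : ℕ → MvPolynomial (Fin 3) ℤ
  | 1 => X 0 ^ 3 - 3 * X 0 * X 1 + 3 * X 2
  | _ => X 1 ^ 3 - 3 * X 0 * X 1 * X 2 + 3 * X 2 ^ 2

private lemma eq_PE {i : ℕ} (hi : 0 < i ∧ i < 3) {P : MvPolynomial (Fin 3) ℤ}
    (h : IsPowerElementary 3 3 i P) : P = PE i := by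
  obtain ⟨e1, e2, e3⟩ := esymm_fin3
  apply inj3
  have hi' : i = 1 ∨ i = 2 := by omega
  unfold IsPowerElementary at h
  rcases hi' with rfl | rfl
  · rw [h, pow_sum1]
    simp only [PE, map_add, map_sub, map_mul, map_pow, aeval_X, Fin.val_zero, Fin.val_one,
      Fin.val_two, zero_add, Nat.reduceAdd, e1, e2, e3, map_ofNat]
    ring
  · rw [h, pow_sum2]
    simp only [PE, map_add, map_sub, map_mul, map_pow, aeval_X, Fin.val_zero, Fin.val_one,
      Fin.val_two, zero_add, Nat.reduceAdd, e1, e2, e3, map_ofNat]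
    ring

private lemma weights_sum (α : Fin (3 - 1) →₀ ℕ) : (weights 3 α).sum = α 0 + 2 * α 1 := by
  have h : List.finRange (3 - 1) = [(0 : Fin (3 - 1)), 1] := by decide
  unfold weights
  rw [h]
  simp
  ring

theorem weights_sum_dvd {i : ℕ} (hi : 0 < i ∧ i < 3) {P : MvPolynomial (Fin 3) ℤ}
    (h : IsPowerElementary 3 3 i P) {α : Fin (3 - 1) →₀ ℕ} (hα : α ∈ (hat 3 P).support) :
    3 ∣ (weights 3 α).sum := by
  classical
  rw [eq_PE hi h] at hα
  rw [weights_sum]
  have hi' : i = 1 ∨ i = 2 := by omega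
  have key : ∀ (a b c : Fin (3 - 1) →₀ ℕ), (3 ∣ a 0 + 2 * a 1) → (3 ∣ b 0 + 2 * b 1) →
      (3 ∣ c 0 + 2 * c 1) → ∀ (r s t : ℤ), hat 3 (PE i) = monomial a r + monomial b s + monomial c t →
      3 ∣ α 0 + 2 * α 1 := by
    intro a b c ha hb hc r s t he
    rw [he] at hα
    have h1 := support_add hα
    rw [Finset.mem_union] at h1
    rcases h1 with h1 | h1
    · have h2 := support_add h1
      rw [Finset.mem_union] at h2
      rcases h2 with h2 | h2
      · have := support_monomial_subset h2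
        rw [Finset.mem_singleton] at this
        rw [this]; exact ha
      · have := support_monomial_subset h2
        rw [Finset.mem_singleton] at this
        rw [this]; exact hb
    · have := support_monomial_subset h1
      rw [Finset.mem_singleton] at this
      rw [this]; exact hc
  have hh : ∀ Q : MvPolynomial (Fin 3) ℤ, hat 3 Q = aeval
    (fun j : Fin 3 => if h : (j : ℕ) < 3 - 1 then (X (⟨j, h⟩ : Fin (3 - 1)) :
      MvPolynomial (Fin (3 - 1)) ℤ) else 1) Q := fun Q => rfl
  rcases hi' with rfl | rfl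
  · refine key (Finsupp.single 0 3) (Finsupp.single 0 1 + Finsupp.single 1 1) 0 ?_ ?_ ?_ 1 (-3) 3 ?_
    · simp
    · simp
    · simp
    · rw [hh]
      simp only [PE, map_add, map_sub, map_mul, map_pow, aeval_X, map_ofNat]
      simp only [monomial_eq]
      simp [Finsupp.prod_add_index']
      ring
  · refine key (Finsupp.single 1 3) (Finsupp.single 0 1 + Finsupp.single 1 1) 0 ?_ ?_ ?_ 1 (-3) 3 ?_
    · simp
    · simp
    · simp
    · rw [hh]
      simp only [PE, map_add, map_sub, map_mul, map_pow, aeval_X, map_ofNat]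
      simp only [monomial_eq]
      simp [Finsupp.prod_add_index']
      ring

end Pool.Agent.Helper26.SK
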